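import Pool.Agent.J4H80.QU.Jobs

set_option autoImplicit false

/-!
# Job B of project QU: paths in dense subsets of a grid
-/

namespace Pool.Agent.J4H80.QU

open Finset

variable {k J : ℕ}

theorem Path.mem_left {M : Finset (Fin k → Fin J)} {n : ℕ} {a b : Fin k → Fin J}
    (h : Path M n a b) : a ∈ M := by
  induction h with
  | refl m hm => exact hm
  | step i x _ _ ih => exact ih

theorem Path.mem_right {M : Finset (Fin k → Fin J)} {n : ℕ} {a b : Fin k → Fin J}
    (h : Path M n a b) : b ∈ M := by
  cases h with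
  | refl _ hm => exact hm
  | step i x _ hx => exact hx

theorem Path.trans {M : Finset (Fin k → Fin J)} {n m : ℕ} {a b c : Fin k → Fin J}
    (h : Path M n a b) (h' : Path M m b c) : Path M (n + m) a c := by
  induction h' with
  | refl _ _ => exact h
  | step i x _ hx ih => exact Path.step i x (ih h) hx

theorem Path.rev {M : Finset (Fin k → Fin J)} {n : ℕ} {a b : Fin k → Fin J}
    (h : Path M n a b) : Path M n b a := by
  induction h with
  | refl m hm => exact Path.refl m hm
  | @step n a b i x h hx ih =>
    have e : Function.update (Function.update b i x) i (b i) = b := by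
      rw [Function.update_idem, Function.update_eq_self]
    have h1 : Path M 1 (Function.update b i x) b := by
      have h2 := Path.step i (b i) (Path.refl (Function.update b i x) hx) (by
        rw [e]; exact h.mem_right)
      rwa [e] at h2
    have h3 := h1.trans ih
    rwa [Nat.add_comm] at h3

theorem Path.mono {M M' : Finset (Fin k → Fin J)} (hM : M ⊆ M') {n : ℕ} {a b : Fin k → Fin J}
    (h : Path M n a b) : Path M' n a b := by
  induction h with
  | refl m hm => exact Path.refl m (hM hm)
  | step i x _ hx ih => exact Path.step i x ih (hM hx)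

/-- cleaning -/
theorem clean (hJ : 0 < J) (M : Finset (Fin k → Fin J)) (t : ℝ) (ht : 0 < t)
    (hM : t * (k * (J : ℝ) ^ (k - 1)) < M.card) :
    ∃ M' ⊆ M, M'.Nonempty ∧ ∀ i : Fin k, ∀ m ∈ M',
      t ≤ (M'.filter (fun m' => Function.update m' i (m i) = m)).card := by
  classical
  let z : Fin J := ⟨0, hJ⟩
  let ln : Finset (Fin k → Fin J) → Finset (Fin k × (Fin k → Fin J)) := fun N =>
    Finset.univ.biUnion fun i : Fin k => N.image fun m => (i, Function.update m i z)
  have hln : ∀ N p, p ∈ ln N ↔ ∃ m ∈ N, p = (p.1, Function.update m p.1 z) := by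
    intro N p
    simp only [ln, Finset.mem_biUnion, Finset.mem_univ, true_and, Finset.mem_image]
    constructor
    · rintro ⟨i, m, hm, rfl⟩
      exact ⟨m, hm, rfl⟩
    · rintro ⟨m, hm, h⟩
      exact ⟨p.1, m, hm, h.symm⟩
  have hcard : ((ln M).card : ℝ) ≤ k * (J : ℝ) ^ (k - 1) := by
    have h1 : (ln M).card ≤ ∑ i : Fin k, (M.image fun m => (i, Function.update m i z)).card :=
      Finset.card_biUnion_le
    have h2 : ∀ i : Fin k, (M.image fun m => (i, Function.update m i z)).card ≤ J ^ (k - 1) := by
      intro i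
      have h3 : (M.image fun m => (i, Function.update m i z)) ⊆
          (Fintype.piFinset (fun j : Fin k => if j = i then {z} else Finset.univ)).image
            (fun m => (i, m)) := by
        intro p hp
        rw [Finset.mem_image] at hp ⊢
        obtain ⟨m, hm, rfl⟩ := hp
        refine ⟨Function.update m i z, ?_, rfl⟩
        rw [Fintype.mem_piFinset]
        intro j
        by_cases hj : j = i
        · subst hj; simp
        · simp [hj]
      refine (Finset.card_le_card h3).trans (Finset.card_image_le.trans ?_)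
      rw [Fintype.card_piFinset, Finset.prod_apply_ite]
      simp [Finset.filter_ne', Finset.card_erase_of_mem]
    have h4 : (ln M).card ≤ k * J ^ (k - 1) := by
      refine h1.trans ((Finset.sum_le_sum fun i _ => h2 i).trans ?_)
      simp
    exact_mod_cast h4
  obtain ⟨M', hM', hmax⟩ := Finset.exists_max_image M.powerset
    (fun N => (N.card : ℝ) - t * (ln N).card) ⟨M, Finset.mem_powerset.2 Finset.Subset.rfl⟩
  rw [Finset.mem_powerset] at hM'
  refine ⟨M', hM', ?_, ?_⟩
  · rw [Finset.nonempty_iff_ne_empty]
    rintro rfl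
    have h := hmax M (Finset.mem_powerset.2 Finset.Subset.rfl)
    have e : ln ∅ = ∅ := by
      ext p
      simp [ln]
    simp only [Finset.card_empty, e, Nat.cast_zero, mul_zero, sub_zero] at h
    have h2 := mul_le_mul_of_nonneg_left hcard ht.le
    linarith
  · intro i m hm
    set F := M'.filter (fun m' => Function.update m' i (m i) = m) with hF
    have hFs : F ⊆ M' := Finset.filter_subset _ _
    have h := hmax (M' \ F) (Finset.mem_powerset.2 (Finset.sdiff_subset.trans hM'))
    have hc : ((M' \ F).card : ℝ) = M'.card - F.card := by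
      rw [Finset.card_sdiff_of_subset hFs, Nat.cast_sub (Finset.card_le_card hFs)]
    have hl : ((ln (M' \ F)).card : ℝ) ≤ (ln M').card - 1 := by
      have h1 : (i, Function.update m i z) ∈ ln M' := (hln _ _).2 ⟨m, hm, rfl⟩
      have h2 : ln (M' \ F) ⊆ (ln M').erase (i, Function.update m i z) := by
        intro p hp
        obtain ⟨m', hm', hp'⟩ := (hln _ _).1 hp
        rw [Finset.mem_sdiff] at hm'
        refine Finset.mem_erase.2 ⟨fun h => hm'.2 ?_, (hln _ _).2 ⟨m', hm'.1, hp'⟩⟩
        rw [hF, Finset.mem_filter]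
        refine ⟨hm'.1, ?_⟩
        rw [h] at hp'
        have h3 : Function.update m i z = Function.update m' i z := (Prod.ext_iff.1 hp').2
        funext j
        by_cases hj : j = i
        · subst hj; simp
        · have := congrFun h3 j
          simp only [Function.update_of_ne hj] at this ⊢
          exact this.symm
      have h3 := Finset.card_le_card h2
      rw [Finset.card_erase_of_mem h1] at h3
      have h4 : 0 < (ln M').card := Finset.card_pos.2 ⟨_, h1⟩
      have h5 : (ln (M' \ F)).card + 1 ≤ (ln M').card := by omega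
      have h6 : ((ln (M' \ F)).card : ℝ) + 1 ≤ (ln M').card := by exact_mod_cast h5
      linarith
    have h2 := mul_le_mul_of_nonneg_left hl ht.le
    simp only [hc] at h
    linarith

/-- change the coordinates one after the other -/
theorem grow (M : Finset (Fin k → Fin J)) (t : ℝ) (ht : 0 ≤ t)
    (hM : ∀ i : Fin k, ∀ m ∈ M, t ≤ (M.filter (fun m' => Function.update m' i (m i) = m)).card)
    (P₀ : Fin k → Fin J) (hP : P₀ ∈ M) : ∀ j ≤ k, ∃ E ⊆ M, t ^ j ≤ (E.card : ℝ) ∧
      (∀ e ∈ E, Path M j P₀ e) ∧ ∀ e ∈ E, ∀ i : Fin k, j ≤ (i : ℕ) → e i = P₀ i := by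
  classical
  intro j
  induction j with
  | zero =>
    intro _
    refine ⟨{P₀}, by simpa using hP, by simp, ?_, ?_⟩
    · intro e he
      rw [Finset.mem_singleton.1 he]
      exact Path.refl _ hP
    · intro e he i _
      rw [Finset.mem_singleton.1 he]
  | succ j ih =>
    intro hj
    obtain ⟨E, hE, hc, hp, he⟩ := ih (by omega)
    let i : Fin k := ⟨j, hj⟩
    refine ⟨M.filter (fun m => Function.update m i (P₀ i) ∈ E), Finset.filter_subset _ _,
      ?_, ?_, ?_⟩
    · have h1 : (M.filter (fun m => Function.update m i (P₀ i) ∈ E)).card =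
          ∑ e ∈ E, ((M.filter (fun m => Function.update m i (P₀ i) ∈ E)).filter
            (fun m => Function.update m i (P₀ i) = e)).card :=
        Finset.card_eq_sum_card_fiberwise fun m hm => (Finset.mem_filter.1 hm).2
      have h2 : ∀ e ∈ E, t ≤ (((M.filter (fun m => Function.update m i (P₀ i) ∈ E)).filter
            (fun m => Function.update m i (P₀ i) = e)).card : ℝ) := by
        intro e hee
        have h3 := hM i e (hE hee)
        refine h3.trans ?_
        have h4 : M.filter (fun m' => Function.update m' i (e i) = e) ⊆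
            (M.filter (fun m => Function.update m i (P₀ i) ∈ E)).filter
            (fun m => Function.update m i (P₀ i) = e) := by
          intro m hm
          rw [Finset.mem_filter] at hm
          have h5 : e i = P₀ i := he e hee i le_rfl
          rw [h5] at hm
          rw [Finset.mem_filter, Finset.mem_filter]
          exact ⟨⟨hm.1, by rw [hm.2]; exact hee⟩, hm.2⟩
        exact_mod_cast Finset.card_le_card h4
      rw [h1, Nat.cast_sum]
      calc t ^ (j + 1) = t ^ j * t := pow_succ _ _
        _ ≤ E.card * t := mul_le_mul_of_nonneg_right hc ht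
        _ = ∑ _e ∈ E, t := by simp
        _ ≤ _ := Finset.sum_le_sum h2
    · intro m hm
      rw [Finset.mem_filter] at hm
      have h1 := hp _ hm.2
      have e1 : Function.update (Function.update m i (P₀ i)) i (m i) = m := by
        rw [Function.update_idem, Function.update_eq_self]
      have h2 := Path.step i (m i) h1 (by rw [e1]; exact hm.1)
      rwa [e1] at h2
    · intro m hm l hl
      rw [Finset.mem_filter] at hm
      have h1 := he _ hm.2 l (by omega)
      rwa [Function.update_of_ne (by
        intro h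
        have : (l : ℕ) = j := by rw [h]
        omega)] at h1

theorem t_DIAG : S_DIAG := by
  classical
  intro k δ C hk hδ
  obtain ⟨k, rfl⟩ : ∃ k', k = k' + 1 := ⟨k - 1, by omega⟩
  set D : ℝ := 2 ^ k * |C| * (2 * ((k + 1 : ℕ) : ℝ) / δ) ^ (k + 1) with hD
  refine ⟨⌈D⌉₊ + 1, fun J hJ M hM β _ Y hY => ?_⟩
  have hJ0 : 0 < J := by omega
  have hJR : (0:ℝ) < J := by exact_mod_cast hJ0
  have hDJ : D < J := by
    have h1 := Nat.le_ceil D
    have h2 : ((⌈D⌉₊ + 1 : ℕ) : ℝ) ≤ J := by exact_mod_cast hJ
    push_cast at h2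
    linarith
  have hkR : (0:ℝ) < ((k + 1 : ℕ) : ℝ) := by positivity
  set t : ℝ := δ * J / (2 * ((k + 1 : ℕ) : ℝ)) with ht
  have ht0 : 0 < t := by positivity
  obtain ⟨M', hM'M, hne, hM'⟩ := clean hJ0 M t ht0 (by
    refine lt_of_lt_of_le ?_ hM
    rw [ht, Nat.add_sub_cancel, pow_succ]
    have h1 : 0 < δ * (J:ℝ) ^ k * J := by positivity
    have h2 : δ * J / (2 * ((k + 1 : ℕ) : ℝ)) * (((k + 1 : ℕ) : ℝ) * (J:ℝ) ^ k) =
        δ * (J:ℝ) ^ k * J / 2 := by
      field_simp
    rw [h2]
    linarith)
  obtain ⟨P₀, hP₀⟩ := hne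
  obtain ⟨E, hEM, hEc, hEp, -⟩ := grow M' t ht0.le hM' P₀ hP₀ (k + 1) le_rfl
  -- pigeonhole
  let dif : (Fin (k + 1) → Fin J) → Fin k → ℤ := fun m i => ((m i.succ : ℕ) : ℤ) - (m 0 : ℕ)
  have hdif : ∀ m m' : Fin (k + 1) → Fin J, dif m = dif m' →
      ∀ i j, ((m i : ℕ) : ℤ) - (m j : ℕ) = ((m' i : ℕ) : ℤ) - (m' j : ℕ) := by
    intro m m' h
    have h1 : ∀ i, ((m i : ℕ) : ℤ) - (m 0 : ℕ) = ((m' i : ℕ) : ℤ) - (m' 0 : ℕ) := by
      intro i
      refine Fin.cases (by simp) (fun i => ?_) i
      exact congrFun h i
    intro i j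
    have := h1 i
    have := h1 j
    omega
  by_cases hinj : ∀ m ∈ E, ∀ m' ∈ E, dif m = dif m' → Y m = Y m' → m = m'
  · exfalso
    have h1 : (E.card : ℝ) ≤ (2 * J : ℝ) ^ k * |C| := by
      have h2 : E.card = ∑ d ∈ E.image dif, (E.filter (fun m => dif m = d)).card :=
        Finset.card_eq_sum_card_fiberwise fun m hm => Finset.mem_image_of_mem _ hm
      have h3 : ∀ d ∈ E.image dif, ((E.filter (fun m => dif m = d)).card : ℝ) ≤ |C| := by
        intro d hd
        rw [Finset.mem_image] at hd
        obtain ⟨m₀, hm₀, rfl⟩ := hd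
        have h4 : (E.filter (fun m => dif m = dif m₀)).card =
            ((E.filter (fun m => dif m = dif m₀)).image Y).card := by
          rw [Finset.card_image_of_injOn]
          intro m hm m' hm' hmm
          rw [Finset.mem_coe, Finset.mem_filter] at hm hm'
          exact hinj m hm.1 m' hm'.1 (hm.2.trans hm'.2.symm) hmm
        have h5 : (E.filter (fun m => dif m = dif m₀)).image Y ⊆
            (M.filter (fun m => ∀ i j, ((m i : ℕ) : ℤ) - (m j : ℕ) =
              ((m₀ i : ℕ) : ℤ) - (m₀ j : ℕ))).image Y := by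
          refine Finset.image_subset_image fun m hm => ?_
          rw [Finset.mem_filter] at hm ⊢
          exact ⟨hM'M (hEM hm.1), hdif _ _ hm.2⟩
        have h6 := hY m₀ (hM'M (hEM hm₀))
        have h7 : ((E.filter (fun m => dif m = dif m₀)).card : ℝ) ≤
            (((M.filter (fun m => ∀ i j, ((m i : ℕ) : ℤ) - (m j : ℕ) =
              ((m₀ i : ℕ) : ℤ) - (m₀ j : ℕ))).image Y).card : ℝ) := by
          rw [h4]
          exact_mod_cast Finset.card_le_card h5
        exact h7.trans (h6.trans (le_abs_self C))
      have h8 : (E.image dif).card ≤ (2 * J) ^ k := by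
        have h9 : E.image dif ⊆ Fintype.piFinset (fun _ : Fin k => Finset.Ico (-(J:ℤ)) J) := by
          intro d hd
          rw [Finset.mem_image] at hd
          obtain ⟨m, -, rfl⟩ := hd
          rw [Fintype.mem_piFinset]
          intro i
          rw [Finset.mem_Ico]
          have h1 := (m i.succ).2
          have h2 := (m 0).2
          simp only [dif]
          constructor <;> omega
        refine (Finset.card_le_card h9).trans (le_of_eq ?_)
        rw [Fintype.card_piFinset]
        simp only [Int.card_Ico, Finset.prod_const, Finset.card_univ, Fintype.card_fin]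
        congr 1
        omega
      calc (E.card : ℝ) = ∑ d ∈ E.image dif, ((E.filter (fun m => dif m = d)).card : ℝ) := by
            exact_mod_cast h2
        _ ≤ ∑ _d ∈ E.image dif, |C| := Finset.sum_le_sum h3
        _ = (E.image dif).card * |C| := by simp
        _ ≤ (2 * J : ℝ) ^ k * |C| := by
            refine mul_le_mul_of_nonneg_right ?_ (abs_nonneg C)
            exact_mod_cast h8
    have h2 : t ^ (k + 1) = (δ / (2 * ((k + 1 : ℕ) : ℝ))) ^ (k + 1) * (J:ℝ) ^ k * J := by
      rw [ht, mul_assoc, ← pow_succ, ← mul_pow]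
      congr 1
      field_simp
    have h3 : D * ((δ / (2 * ((k + 1 : ℕ) : ℝ))) ^ (k + 1)) = 2 ^ k * |C| := by
      rw [hD, mul_assoc, ← mul_pow]
      have : 2 * ((k + 1 : ℕ) : ℝ) / δ * (δ / (2 * ((k + 1 : ℕ) : ℝ))) = 1 := by
        field_simp
      rw [this, one_pow, mul_one]
    have h4 : 0 < (δ / (2 * ((k + 1 : ℕ) : ℝ))) ^ (k + 1) := by positivity
    have h5 : 2 ^ k * |C| < (δ / (2 * ((k + 1 : ℕ) : ℝ))) ^ (k + 1) * J := by
      rw [← h3, mul_comm]
      exact mul_lt_mul_of_pos_left hDJ h4
    have h6 : 0 < (J:ℝ) ^ k := by positivity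
    have h7 := mul_lt_mul_of_pos_right h5 h6
    rw [mul_pow] at h1
    rw [h2] at hEc
    linarith
  · push Not at hinj
    obtain ⟨m, hm, m', hm', h1, h2, h3⟩ := hinj
    have hd := hdif _ _ h1
    have hall : ∀ i, ((m i : ℕ) : ℤ) - (m' i : ℕ) = ((m 0 : ℕ) : ℤ) - (m' 0 : ℕ) := by
      intro i
      have := hd i 0
      omega
    have hne : (m 0 : ℕ) ≠ m' 0 := by
      intro h
      apply h3
      funext i
      have := hall i
      apply Fin.ext
      omega
    have hpath : ∀ a ∈ E, ∀ b ∈ E, Path M (2 * (k + 1)) a b := by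
      intro a ha b hb
      have := ((hEp a ha).rev.trans (hEp b hb)).mono hM'M
      rwa [← two_mul] at this
    rcases lt_or_gt_of_ne hne with h | h
    · refine ⟨m', hM'M (hEM hm'), m, hM'M (hEM hm), (m' 0 : ℕ) - m 0, by omega, fun i => ?_,
        h2.symm, hpath m hm m' hm'⟩
      have := hall i
      omega
    · refine ⟨m, hM'M (hEM hm), m', hM'M (hEM hm'), (m 0 : ℕ) - m' 0, by omega, fun i => ?_,
        h2, hpath m' hm' m hm⟩
      have := hall i
      omega

end Pool.Agent.J4H80.QU
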