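import Pool.Agent.J4H80.QU.Jobs

set_option autoImplicit false

/-!
# Jobs D1 and D2 of project QU: iterates of `x ↦ ⌊a x / b⌋`
-/

namespace Pool.Agent.J4H80.QU

open Finset

theorem TT_mod (a b : ℕ) (x : ℤ) : (b : ℤ) * TT a b x = a * x - (a * x) % b := by
  have h := Int.mul_ediv_add_emod ((a : ℤ) * x) b
  unfold TT
  linarith

theorem TT_err {a b : ℕ} (hb : 1 ≤ b) (x : ℤ) : |(b : ℤ) * TT a b x - a * x| ≤ b := by
  have hb' : (0 : ℤ) < b := by exact_mod_cast hb
  have h1 := Int.emod_nonneg ((a : ℤ) * x) hb'.ne'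
  have h2 := Int.emod_lt_of_pos ((a : ℤ) * x) hb'
  have h3 := TT_mod a b x
  rw [abs_le]
  constructor <;> linarith

theorem t_FLOOR : S_FLOOR := by
  intro a b J hb
  have key : ∃ E : ℕ, ∀ (y : ℤ) (e : ℕ), e ≤ J →
      |(b : ℤ) ^ e * (TT a b)^[e] y - (a : ℤ) ^ e * y| ≤ E := by
    induction J with
    | zero =>
      refine ⟨0, fun y e he => ?_⟩
      obtain rfl : e = 0 := by omega
      simp
    | succ J ih =>
      obtain ⟨E, hE⟩ := ih
      refine ⟨E + (a * E + b ^ J * b), fun y e he => ?_⟩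
      rcases Nat.lt_or_ge e (J + 1) with h | h
      · refine (hE y e (by omega)).trans ?_
        push_cast
        have : (0:ℤ) ≤ a * E + b ^ J * b := by positivity
        linarith
      · obtain rfl : e = J + 1 := by omega
        rw [Function.iterate_succ_apply']
        set w := (TT a b)^[J] y with hw
        have h1 := hE y J le_rfl
        have h2 := TT_err (a := a) hb w
        have e1 : (b : ℤ) ^ (J + 1) * TT a b w - (a : ℤ) ^ (J + 1) * y =
            (b:ℤ) ^ J * ((b : ℤ) * TT a b w - a * w) +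
              a * ((b:ℤ) ^ J * w - (a:ℤ) ^ J * y) := by ring
        rw [e1]
        refine (abs_add_le _ _).trans ?_
        rw [abs_mul, abs_mul, abs_of_nonneg (show (0:ℤ) ≤ (b:ℤ) ^ J by positivity),
          abs_of_nonneg (show (0:ℤ) ≤ (a:ℤ) by positivity)]
        have h3 := mul_le_mul_of_nonneg_left h2 (show (0:ℤ) ≤ (b:ℤ) ^ J by positivity)
        have h4 := mul_le_mul_of_nonneg_left h1 (show (0:ℤ) ≤ (a:ℤ) by positivity)
        push_cast
        have : (0:ℤ) ≤ E := by positivity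
        linarith
  obtain ⟨E, hE⟩ := key
  refine ⟨E, fun x m e he => ?_⟩
  rw [Nat.add_comm m e, Function.iterate_add_apply]
  exact hE _ e he

theorem TT_strictMono {a b : ℕ} (hb : 1 ≤ b) (hab : b ≤ a) : StrictMono (TT a b) := by
  intro x y hxy
  have hb' : (0 : ℤ) < b := by exact_mod_cast hb
  have h1 := TT_mod a b x
  have h2 := TT_mod a b y
  have h3 := Int.emod_nonneg ((a : ℤ) * x) hb'.ne'
  have h4 := Int.emod_lt_of_pos ((a : ℤ) * y) hb'
  have hab' : (b : ℤ) ≤ a := by exact_mod_cast hab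
  have h5 : (b:ℤ) ≤ a * (y - x) := by nlinarith
  by_contra hcon
  push Not at hcon
  have h6 := mul_le_mul_of_nonneg_left hcon hb'.le
  linarith

theorem TT_bound {a b : ℕ} (hb : 1 ≤ b) (hab : b ≤ a) (x : ℤ) (m : ℕ) :
    |(((TT a b)^[m] x : ℤ) : ℝ)| ≤ ((a:ℝ) / b) ^ m * (|(x:ℝ)| + m) := by
  have hbR : (0:ℝ) < b := by exact_mod_cast hb
  have habR : (b:ℝ) ≤ a := by exact_mod_cast hab
  have hρ : 1 ≤ (a:ℝ) / b := by rw [le_div_iff₀ hbR]; linarith
  induction m with
  | zero => simp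
  | succ m ih =>
    rw [Function.iterate_succ_apply']
    set w := (TT a b)^[m] x
    have h1 := TT_err (a := a) hb w
    have h2 : |(b:ℝ) * (TT a b w : ℤ) - a * (w:ℝ)| ≤ b := by exact_mod_cast h1
    have h3 : |((TT a b w : ℤ) : ℝ)| ≤ a / b * |(w:ℝ)| + 1 := by
      rw [abs_le] at h2
      have h5 : -((a:ℝ) * |(w:ℝ)| + b) ≤ b * ((TT a b w : ℤ) : ℝ) := by
        have := neg_abs_le (w:ℝ)
        have h6 := mul_le_mul_of_nonneg_left this (show (0:ℝ) ≤ a by positivity)
        linarith [h2.1]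
      have h6 : b * ((TT a b w : ℤ) : ℝ) ≤ a * |(w:ℝ)| + b := by
        have := le_abs_self (w:ℝ)
        have h6 := mul_le_mul_of_nonneg_left this (show (0:ℝ) ≤ a by positivity)
        linarith [h2.2]
      have h7 : |(b:ℝ) * ((TT a b w : ℤ) : ℝ)| ≤ a * |(w:ℝ)| + b := abs_le.2 ⟨h5, h6⟩
      rw [abs_mul, abs_of_pos hbR] at h7
      have h8 : (a:ℝ) / b * |(w:ℝ)| + 1 = (a * |(w:ℝ)| + b) / b := by
        field_simp
      rw [h8, le_div_iff₀ hbR]
      linarith
    have h4 := mul_le_mul_of_nonneg_left ih (show (0:ℝ) ≤ a / b by positivity)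
    have h5 : 1 ≤ ((a:ℝ) / b) ^ (m + 1) := one_le_pow₀ hρ
    push_cast
    calc |((TT a b w : ℤ) : ℝ)| ≤ a / b * |(w:ℝ)| + 1 := h3
      _ ≤ a / b * (((a:ℝ) / b) ^ m * (|(x:ℝ)| + m)) + ((a:ℝ) / b) ^ (m + 1) := by linarith
      _ = _ := by ring

/-- few points leave the interval -/
theorem few_leave {a b J : ℕ} {κ : ℝ} (hκ0 : 0 < κ) (hb : 1 ≤ b) (hab : b < a)
    (haJ : (a : ℝ) ^ J ≤ (1 + κ) * (b : ℝ) ^ J) {N m : ℕ} (hm : m < J) :
    (((Finset.Icc (-(N:ℤ)) N).filter (fun y => ¬ (TT a b)^[m] y ∈ Finset.Icc (-(N:ℤ)) N)).card : ℝ)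
      ≤ 2 * κ * N + 2 * J + 2 := by
  have hbR : (0:ℝ) < b := by exact_mod_cast hb
  have habR : (b:ℝ) ≤ a := by exact_mod_cast hab.le
  have hρ : 1 ≤ (a:ℝ) / b := by rw [le_div_iff₀ hbR]; linarith
  have hρJ : ((a:ℝ) / b) ^ m ≤ 1 + κ := by
    refine (pow_le_pow_right₀ hρ hm.le).trans ?_
    rw [div_pow, div_le_iff₀ (by positivity)]
    exact haJ
  -- `K`
  set r : ℝ := N * (1 - κ) - J with hr
  have hsub : (Finset.Icc (-(N:ℤ)) N).filter (fun y => ¬ (TT a b)^[m] y ∈ Finset.Icc (-(N:ℤ)) N) ⊆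
      Finset.Ioc ⌊r⌋ N ∪ Finset.Ico (-(N:ℤ)) (-⌊r⌋) := by
    intro y hy
    rw [Finset.mem_filter, Finset.mem_Icc] at hy
    obtain ⟨⟨h1, h2⟩, h3⟩ := hy
    have h4 : r < |(y:ℝ)| := by
      by_contra hcon
      push Not at hcon
      apply h3
      have h5 := TT_bound hb hab.le y m
      have hmJ : (m:ℝ) ≤ J := by exact_mod_cast hm.le
      have h6 : |(((TT a b)^[m] y : ℤ) : ℝ)| ≤ N := by
        refine h5.trans ?_
        have h7 : |(y:ℝ)| + m ≤ N * (1 - κ) := by rw [hr] at hcon; linarith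
        have h8 : ((a:ℝ) / b) ^ m * (|(y:ℝ)| + m) ≤ (1 + κ) * (N * (1 - κ)) :=
          mul_le_mul hρJ h7 (by positivity) (by linarith)
        refine h8.trans ?_
        have : (0:ℝ) ≤ N := by positivity
        nlinarith [mul_nonneg this (sq_nonneg κ)]
      have h9 : |(TT a b)^[m] y| ≤ (N:ℤ) := by exact_mod_cast h6
      rw [abs_le] at h9
      exact Finset.mem_Icc.2 h9
    rw [Finset.mem_union, Finset.mem_Ioc, Finset.mem_Ico]
    rcases abs_cases (y:ℝ) with ⟨he, -⟩ | ⟨he, -⟩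
    · left
      refine ⟨?_, h2⟩
      rw [Int.floor_lt]
      rw [he] at h4
      exact h4
    · right
      refine ⟨h1, ?_⟩
      rw [he] at h4
      have : ⌊r⌋ < -y := by
        rw [Int.floor_lt]
        push_cast
        exact h4
      omega
  have h1 := (Finset.card_le_card hsub).trans (Finset.card_union_le _ _)
  have h2 : ((Finset.Icc (-(N:ℤ)) N).filter
      (fun y => ¬ (TT a b)^[m] y ∈ Finset.Icc (-(N:ℤ)) N)).card ≤ 2 * ((N:ℤ) - ⌊r⌋).toNat := by
    refine h1.trans (le_of_eq ?_)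
    rw [Int.card_Ioc, Int.card_Ico]
    have : -⌊r⌋ - -(N:ℤ) = N - ⌊r⌋ := by ring
    rw [this]
    ring
  have h3 : r ≤ N := by
    rw [hr]
    have : (0:ℝ) ≤ N := by positivity
    have h5 : (0:ℝ) ≤ J := by positivity
    nlinarith
  have h4 : ⌊r⌋ ≤ (N:ℤ) := by
    rw [← Int.cast_le (R := ℝ)]
    push_cast
    exact (Int.floor_le r).trans h3
  have h5 : ((((N:ℤ) - ⌊r⌋).toNat : ℕ) : ℝ) = N - ⌊r⌋ := by
    have : ((((N:ℤ) - ⌊r⌋).toNat : ℤ)) = (N:ℤ) - ⌊r⌋ := Int.toNat_of_nonneg (by omega)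
    have h6 : (((((N:ℤ) - ⌊r⌋).toNat : ℤ)) : ℝ) = (((N:ℤ) - ⌊r⌋ : ℤ) : ℝ) := by rw [this]
    push_cast at h6
    exact_mod_cast h6
  have h6 : (((Finset.Icc (-(N:ℤ)) N).filter
      (fun y => ¬ (TT a b)^[m] y ∈ Finset.Icc (-(N:ℤ)) N)).card : ℝ) ≤ 2 * (N - ⌊r⌋) := by
    rw [← h5]
    exact_mod_cast h2
  have h7 := Int.sub_one_lt_floor r
  refine h6.trans ?_
  have h8 : r - 1 < ((⌊r⌋ : ℤ) : ℝ) := h7
  rw [hr] at h8
  linarith

/-- most points are hit -/
theorem few_missed {a b J : ℕ} {κ : ℝ} (hκ0 : 0 < κ) (hb : 1 ≤ b) (hab : b < a)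
    (haJ : (a : ℝ) ^ J ≤ (1 + κ) * (b : ℝ) ^ J) {N m : ℕ} (hm : m < J) :
    ((Finset.Icc (-(N:ℤ)) N \ (Finset.Icc (-(N:ℤ)) N).image ((TT a b)^[m])).card : ℝ)
      ≤ 2 * κ * N + 2 * J + 2 := by
  classical
  refine le_trans ?_ (few_leave hκ0 hb hab haJ hm (N := N))
  have hinj : Function.Injective ((TT a b)^[m]) := (TT_strictMono hb hab.le).injective.iterate m
  set I := Finset.Icc (-(N:ℤ)) N with hI
  have h1 : (I.filter (fun y => (TT a b)^[m] y ∈ I)).card ≤ (I ∩ I.image ((TT a b)^[m])).card := by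
    rw [← Finset.card_image_of_injective _ hinj]
    refine Finset.card_le_card fun y hy => ?_
    rw [Finset.mem_image] at hy
    obtain ⟨x, hx, rfl⟩ := hy
    rw [Finset.mem_filter] at hx
    exact Finset.mem_inter.2 ⟨hx.2, Finset.mem_image_of_mem _ hx.1⟩
  have h2 : (I ∩ I.image ((TT a b)^[m])).card + (I \ I.image ((TT a b)^[m])).card = I.card :=
    Finset.card_inter_add_card_sdiff _ _
  have h3 := Finset.card_filter_add_card_filter_not (s := I) (fun y => (TT a b)^[m] y ∈ I)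
  have h4 : (I \ I.image ((TT a b)^[m])).card ≤
      (I.filter (fun y => ¬ (TT a b)^[m] y ∈ I)).card := by omega
  exact_mod_cast h4

theorem t_GOODG : S_GOODG := by
  classical
  intro k J δ hk hJ hδ
  have hkR : (1:ℝ) ≤ k := by exact_mod_cast hk
  set κ : ℝ := min 1 (δ / (8 * k * 3 ^ k)) with hκ
  have hκ0 : 0 < κ := lt_min one_pos (by positivity)
  have hκ1 : κ ≤ 1 := min_le_left _ _
  have hκ2 : κ * (8 * k * 3 ^ k) ≤ δ := by
    have := min_le_right 1 (δ / (8 * k * 3 ^ k))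
    rw [← hκ, le_div_iff₀ (by positivity)] at this
    exact this
  refine ⟨κ, hκ0, hκ1, fun a b hb hab haJ => ?_⟩
  refine ⟨⌈(2 * J + 2) / (2 * κ)⌉₊ + 1, fun N hN B hB hBc => ?_⟩
  have hN1 : 1 ≤ N := by omega
  have hNR : (1:ℝ) ≤ N := by exact_mod_cast hN1
  have hN2 : 2 * (J:ℝ) + 2 ≤ 2 * κ * N := by
    have h1 := Nat.le_ceil ((2 * (J:ℝ) + 2) / (2 * κ))
    have h2 : ((⌈(2 * (J:ℝ) + 2) / (2 * κ)⌉₊ + 1 : ℕ) : ℝ) ≤ N := by exact_mod_cast hN
    push_cast at h2
    have h3 : (2 * (J:ℝ) + 2) / (2 * κ) ≤ N := by linarith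
    rw [div_le_iff₀ (by positivity)] at h3
    linarith
  set I := Finset.Icc (-(N:ℤ)) N with hI
  have hIc : (I.card : ℝ) ≤ 3 * N := by
    have h1 : I.card = 2 * N + 1 := by
      rw [hI, Int.card_Icc]
      omega
    rw [h1]
    push_cast
    linarith
  set box := Fintype.piFinset (fun _ : Fin k => I) with hbox
  have hBbox : B ⊆ box := by
    intro x hx
    rw [hbox, Fintype.mem_piFinset]
    intro i
    have := hB x hx i
    rw [abs_le] at this
    exact Finset.mem_Icc.2 this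
  let φ : (Fin k → Fin J) → (Fin k → ℤ) → (Fin k → ℤ) := fun m g i => (TT a b)^[(m i : ℕ)] (g i)
  -- for each `m`
  have hm : ∀ m : Fin k → Fin J, δ / 2 * (N:ℝ) ^ k ≤ ((box.filter (fun g => φ m g ∈ B)).card : ℝ) := by
    intro m
    have hsub : B ⊆ (box.filter (fun g => φ m g ∈ B)).image (φ m) ∪
        Finset.univ.biUnion (fun i : Fin k => Fintype.piFinset (fun j : Fin k =>
          if j = i then I \ I.image ((TT a b)^[(m i : ℕ)]) else I)) := by
      intro x hx
      rw [Finset.mem_union, Finset.mem_biUnion]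
      by_cases hall : ∀ i, x i ∈ I.image ((TT a b)^[(m i : ℕ)])
      · left
        have hall' : ∀ i, ∃ y ∈ I, (TT a b)^[(m i : ℕ)] y = x i := fun i => Finset.mem_image.1 (hall i)
        choose g hg hgx using hall'
        have hφ : φ m g = x := funext hgx
        rw [Finset.mem_image]
        refine ⟨g, Finset.mem_filter.2 ⟨Fintype.mem_piFinset.2 hg, by rw [hφ]; exact hx⟩, hφ⟩
      · right
        push Not at hall
        obtain ⟨i, hi⟩ := hall
        refine ⟨i, Finset.mem_univ _, ?_⟩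
        rw [Fintype.mem_piFinset]
        intro j
        have hxj := Fintype.mem_piFinset.1 (hBbox hx) j
        by_cases hj : j = i
        · subst hj
          rw [if_pos rfl]
          exact Finset.mem_sdiff.2 ⟨hxj, hi⟩
        · rw [if_neg hj]
          exact hxj
    have h1 := (Finset.card_le_card hsub).trans (Finset.card_union_le _ _)
    have h2 : ((Finset.univ.biUnion (fun i : Fin k => Fintype.piFinset (fun j : Fin k =>
          if j = i then I \ I.image ((TT a b)^[(m i : ℕ)]) else I))).card : ℝ) ≤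
        δ / 2 * (N:ℝ) ^ k := by
      have h3 : ∀ i : Fin k, ((Fintype.piFinset (fun j : Fin k =>
          if j = i then I \ I.image ((TT a b)^[(m i : ℕ)]) else I)).card : ℝ) ≤
          4 * κ * N * (3 * N) ^ (k - 1) := by
        intro i
        rw [Fintype.card_piFinset, ← Finset.mul_prod_erase Finset.univ _ (Finset.mem_univ i),
          if_pos rfl, Nat.cast_mul]
        have h4 := few_missed hκ0 hb hab haJ (N := N) (m i).2
        have h5 : (((Finset.univ.erase i).prod fun j : Fin k =>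
            (if j = i then I \ I.image ((TT a b)^[(m i : ℕ)]) else I).card : ℕ) : ℝ) ≤
            (3 * N) ^ (k - 1) := by
          rw [Nat.cast_prod]
          have h6 : (Finset.univ.erase i).card = k - 1 := by
            rw [Finset.card_erase_of_mem (Finset.mem_univ i), Finset.card_univ, Fintype.card_fin]
          calc _ ≤ ∏ _j ∈ Finset.univ.erase i, (3 * (N:ℝ)) := by
                refine Finset.prod_le_prod (fun j _ => Nat.cast_nonneg _) fun j hj => ?_
                rw [if_neg (Finset.ne_of_mem_erase hj)]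
                exact hIc
            _ = _ := by rw [Finset.prod_const, h6]
        have h7 : (2 * κ * N + 2 * J + 2 : ℝ) ≤ 4 * κ * N := by linarith
        exact mul_le_mul (h4.trans h7) h5 (Nat.cast_nonneg _) (by positivity)
      have h4 : ((Finset.univ.biUnion (fun i : Fin k => Fintype.piFinset (fun j : Fin k =>
          if j = i then I \ I.image ((TT a b)^[(m i : ℕ)]) else I))).card : ℝ) ≤
          k * (4 * κ * N * (3 * N) ^ (k - 1)) := by
        refine le_trans (Nat.cast_le.2 Finset.card_biUnion_le) ?_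
        rw [Nat.cast_sum]
        refine (Finset.sum_le_sum fun i _ => h3 i).trans ?_
        simp
      refine h4.trans ?_
      obtain ⟨k', rfl⟩ : ∃ k', k = k' + 1 := ⟨k - 1, by omega⟩
      rw [Nat.add_sub_cancel]
      have h5 : ((k' + 1 : ℕ) : ℝ) * (4 * κ * N * (3 * N) ^ k') =
          (κ * (8 * ((k' + 1 : ℕ) : ℝ) * 3 ^ (k' + 1))) * (N:ℝ) ^ (k' + 1) / 6 := by
        rw [mul_pow, pow_succ, pow_succ]
        ring
      rw [h5]
      have h6 : 0 < (N:ℝ) ^ (k' + 1) := by positivity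
      have h7 := mul_le_mul_of_nonneg_right hκ2 h6.le
      have h8 : 0 < δ * (N:ℝ) ^ (k' + 1) := by positivity
      linarith
    have h3 : (B.card : ℝ) ≤ ((box.filter (fun g => φ m g ∈ B)).card : ℝ) + δ / 2 * (N:ℝ) ^ k := by
      have h4 : (B.card : ℝ) ≤ (((box.filter (fun g => φ m g ∈ B)).image (φ m)).card : ℝ) +
          ((Finset.univ.biUnion (fun i : Fin k => Fintype.piFinset (fun j : Fin k =>
          if j = i then I \ I.image ((TT a b)^[(m i : ℕ)]) else I))).card : ℝ) := by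
        exact_mod_cast h1
      have h5 : (((box.filter (fun g => φ m g ∈ B)).image (φ m)).card : ℝ) ≤
          ((box.filter (fun g => φ m g ∈ B)).card : ℝ) := by
        exact_mod_cast Finset.card_image_le
      linarith
    linarith
  -- averaging
  let cnt : (Fin k → ℤ) → ℕ := fun g => (Finset.univ.filter (fun m : Fin k → Fin J => φ m g ∈ B)).card
  have hsum : ∑ m : Fin k → Fin J, (box.filter (fun g => φ m g ∈ B)).card = ∑ g ∈ box, cnt g := by
    simp only [cnt, Finset.card_filter]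
    exact Finset.sum_comm
  have hcnt : ∀ g, (cnt g : ℝ) ≤ (J:ℝ) ^ k := by
    intro g
    have h1 : cnt g ≤ J ^ k := by
      refine (Finset.card_le_univ _).trans (le_of_eq ?_)
      simp
    exact_mod_cast h1
  have h1 : (J:ℝ) ^ k * (δ / 2 * (N:ℝ) ^ k) ≤ ∑ g ∈ box, (cnt g : ℝ) := by
    rw [← Nat.cast_sum, ← hsum, Nat.cast_sum]
    calc (J:ℝ) ^ k * (δ / 2 * (N:ℝ) ^ k) = ∑ _m : Fin k → Fin J, δ / 2 * (N:ℝ) ^ k := by
          simp
      _ ≤ _ := Finset.sum_le_sum fun m _ => hm m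
  set G := box.filter (fun g => δ / (4 * 3 ^ k) * (J : ℝ) ^ k ≤ (cnt g : ℝ)) with hG
  have h2 : ∑ g ∈ box, (cnt g : ℝ) ≤ G.card * (J:ℝ) ^ k +
      box.card * (δ / (4 * 3 ^ k) * (J : ℝ) ^ k) := by
    calc ∑ g ∈ box, (cnt g : ℝ) ≤ ∑ g ∈ box, ((if δ / (4 * 3 ^ k) * (J : ℝ) ^ k ≤ (cnt g : ℝ)
          then (J:ℝ) ^ k else 0) + δ / (4 * 3 ^ k) * (J : ℝ) ^ k) := by
          refine Finset.sum_le_sum fun g _ => ?_
          split_ifs with h
          · have : 0 ≤ δ / (4 * 3 ^ k) * (J : ℝ) ^ k := by positivity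
            linarith [hcnt g]
          · push Not at h
            linarith
      _ = _ := by
          rw [Finset.sum_add_distrib, ← Finset.sum_filter, Finset.sum_const, Finset.sum_const,
            nsmul_eq_mul, nsmul_eq_mul]
  have h3 : (box.card : ℝ) ≤ 3 ^ k * (N:ℝ) ^ k := by
    rw [hbox, Fintype.card_piFinset]
    simp only [Finset.prod_const, Finset.card_univ, Fintype.card_fin, Nat.cast_pow]
    rw [← mul_pow]
    exact pow_le_pow_left₀ (Nat.cast_nonneg _) hIc k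
  have hJk : 0 < (J:ℝ) ^ k := by
    have : (0:ℝ) < J := by exact_mod_cast hJ
    positivity
  have h4 : (box.card : ℝ) * (δ / (4 * 3 ^ k) * (J : ℝ) ^ k) ≤ δ / 4 * (N:ℝ) ^ k * (J:ℝ) ^ k := by
    have h5 := mul_le_mul_of_nonneg_right h3 (show 0 ≤ δ / (4 * 3 ^ k) * (J : ℝ) ^ k by positivity)
    refine h5.trans (le_of_eq ?_)
    field_simp
  have h5 : δ / 4 * (N:ℝ) ^ k * (J:ℝ) ^ k ≤ G.card * (J:ℝ) ^ k := by
    have : (J:ℝ) ^ k * (δ / 2 * (N:ℝ) ^ k) = 2 * (δ / 4 * (N:ℝ) ^ k * (J:ℝ) ^ k) := by ring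
    linarith
  exact le_of_mul_le_mul_right h5 hJk

end Pool.Agent.J4H80.QU
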