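import Pool.Agent.J4H80.QU.Jobs
import Pool.Agent.H217R3.AK.Bsg

set_option autoImplicit false

/-!
# Job C of project QU: Gowers' quadruple lemma and Balog-Szemeredi-Gowers on lines
-/

namespace Pool.Agent.J4H80.QU

open Finset Pointwise

/-- one line -/
theorem line_step {p N : ℕ} [NeZero p] {c δ₁ Λ : ℝ} (hc : 0 < c) (hδ₁ : 0 < δ₁) (hΛ : 0 < Λ)
    (hN : 1 ≤ N) (hp : (p : ℝ) ≤ Λ * N) {F : ZMod p → ℝ} (hF : ∀ x, |F x| ≤ 1)
    (hF2 : ∑ x, |F x| ≤ N) {S : Finset (ZMod p)} {jj : ZMod p → ZMod p}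
    (hS : (S.card : ℝ) ≤ 3 * N) (hS1 : δ₁ * N ≤ S.card)
    (hh : ∀ h ∈ S, c * N ≤ ‖ft (dl F h) (jj h)‖) :
    ∃ A ⊆ S.image (fun h => (h, jj h)), A.Nonempty ∧
      (S.card : ℝ) ≤ 8 * (27 * Λ ^ 2 / (δ₁ * c ^ 2) ^ 4) * A.card ∧
      ((A - A).card : ℝ) ≤ 2 ^ 22 * (27 * Λ ^ 2 / (δ₁ * c ^ 2) ^ 4) ^ 10 * A.card := by
  classical
  have hNR : (1 : ℝ) ≤ N := by exact_mod_cast hN
  have hN0 : (0 : ℝ) < N := by linarith
  set A₀ := S.image (fun h => (h, jj h)) with hA₀
  have hinj : Function.Injective fun h : ZMod p => (h, jj h) := fun a b h => (Prod.mk.inj h).1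
  have hAc : A₀.card = S.card := Finset.card_image_of_injective _ hinj
  have hS0 : (0:ℝ) < S.card := lt_of_lt_of_le (by positivity) hS1
  have hA0 : A₀.Nonempty := by
    rw [← Finset.card_pos, hAc]
    exact_mod_cast hS0
  have hq := quad hF hN0.le hF2 S jj
  rw [← hA₀] at hq
  have h1 : δ₁ * N * (c * N) ^ 2 ≤ ∑ h ∈ S, ‖ft (dl F h) (jj h)‖ ^ 2 := by
    calc δ₁ * N * (c * N) ^ 2 ≤ S.card * (c * N) ^ 2 := mul_le_mul_of_nonneg_right hS1 (by positivity)
      _ = ∑ _h ∈ S, (c * N) ^ 2 := by rw [Finset.sum_const, nsmul_eq_mul]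
      _ ≤ _ := Finset.sum_le_sum fun h hhS => pow_le_pow_left₀ (by positivity) (hh h hhS) 2
  have h2 : (δ₁ * N * (c * N) ^ 2) ^ 4 ≤ N ^ 7 * p ^ 2 * (A₀.addEnergy A₀ : ℕ) :=
    (pow_le_pow_left₀ (by positivity) h1 4).trans hq
  have h3 : (p:ℝ) ^ 2 ≤ Λ ^ 2 * N ^ 2 := by
    rw [← mul_pow]
    exact pow_le_pow_left₀ (Nat.cast_nonneg _) hp 2
  have h4 : (N : ℝ) ^ 9 * ((δ₁ * c ^ 2) ^ 4 * N ^ 3) ≤ N ^ 9 * (Λ ^ 2 * (A₀.addEnergy A₀ : ℕ)) := by
    have h2' : (N:ℝ) ^ 7 * (p:ℝ) ^ 2 * ((A₀.addEnergy A₀ : ℕ) : ℝ) ≤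
        (N:ℝ) ^ 7 * (Λ ^ 2 * (N:ℝ) ^ 2) * ((A₀.addEnergy A₀ : ℕ) : ℝ) := by gcongr
    have e1 : (N : ℝ) ^ 9 * ((δ₁ * c ^ 2) ^ 4 * (N:ℝ) ^ 3) = (δ₁ * N * (c * N) ^ 2) ^ 4 := by ring
    have e2 : (N:ℝ) ^ 7 * (Λ ^ 2 * (N:ℝ) ^ 2) * ((A₀.addEnergy A₀ : ℕ) : ℝ) =
        (N:ℝ) ^ 9 * (Λ ^ 2 * ((A₀.addEnergy A₀ : ℕ) : ℝ)) := by ring
    rw [e1, ← e2]
    exact h2.trans h2'
  have h5 := le_of_mul_le_mul_left h4 (by positivity)
  have hK0 : 0 < 27 * Λ ^ 2 / (δ₁ * c ^ 2) ^ 4 := by positivity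
  have hE : (A₀.card : ℝ) ^ 3 ≤ (27 * Λ ^ 2 / (δ₁ * c ^ 2) ^ 4) * (A₀.addEnergy A₀ : ℕ) := by
    rw [hAc]
    calc (S.card : ℝ) ^ 3 ≤ (3 * N) ^ 3 := pow_le_pow_left₀ (Nat.cast_nonneg _) hS 3
      _ = 27 / (δ₁ * c ^ 2) ^ 4 * ((δ₁ * c ^ 2) ^ 4 * N ^ 3) := by field_simp; ring
      _ ≤ 27 / (δ₁ * c ^ 2) ^ 4 * (Λ ^ 2 * (A₀.addEnergy A₀ : ℕ)) :=
          mul_le_mul_of_nonneg_left h5 (by positivity)
      _ = _ := by ring
  obtain ⟨A, hA1, hA2, hA3, hA4⟩ := Pool.Agent.H217R3.AK.bsg A₀ hA0 _ hK0 hE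
  rw [hAc] at hA3
  exact ⟨A, hA1, hA2, hA3, hA4⟩

theorem Struct.mono {p k : ℕ} {i : Fin k} {C C' : ℝ} {B B' : Finset (Fin k → ZMod p)}
    {ξ : (Fin k → ZMod p) → ZMod p} (h : Struct i C B ξ) (hC : C ≤ C') (hB : B' ⊆ B) :
    Struct i C' B' ξ := by
  obtain ⟨A, h1, h2, h3⟩ := h
  refine ⟨A, h1, fun x hx => h2 x (hB hx), fun x hx => ⟨(h3 x hx).1, (h3 x hx).2.trans ?_⟩⟩
  exact mul_le_mul_of_nonneg_right hC (Nat.cast_nonneg _)

/-- one direction -/
theorem refine_one (k : ℕ) (c δ Λ : ℝ) (hc : 0 < c) (hδ : 0 < δ) (hΛ : 0 < Λ) :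
    ∃ δ' C : ℝ, 0 < δ' ∧ 1 ≤ C ∧ ∀ (p N : ℕ) [NeZero p], 1 ≤ N → (p : ℝ) ≤ Λ * N →
    ∀ F : ZMod p → ℝ, (∀ x, |F x| ≤ 1) → ∑ x, |F x| ≤ N →
    ∀ (ξ : (Fin k → ZMod p) → ZMod p) (B : Finset (Fin k → ZMod p)),
    (∀ x ∈ B, ∀ i, |(x i).valMinAbs| ≤ (N : ℤ)) →
    (∀ x ∈ B, c * N ≤ ‖ft (fun y => ((PD Finset.univ x F y : ℝ) : ℂ)) (ξ x)‖) →
    δ * (N : ℝ) ^ k ≤ B.card → ∀ i : Fin k,
    ∃ B' ⊆ B, δ' * (N : ℝ) ^ k ≤ B'.card ∧ Struct i C B' ξ := by
  classical
  set δ₁ : ℝ := δ / (2 * 3 ^ k) with hδ₁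
  have hδ₁0 : 0 < δ₁ := by positivity
  set K : ℝ := 27 * Λ ^ 2 / (δ₁ * c ^ 2) ^ 4 with hK
  have hK0 : 0 < K := by positivity
  refine ⟨δ / (16 * K), max 1 (2 ^ 22 * K ^ 10), by positivity, le_max_left _ _, ?_⟩
  intro p N _ hN hp F hF hF2 ξ B hB hBc hBδ i
  have hNR : (1 : ℝ) ≤ N := by exact_mod_cast hN
  have hN0 : (0 : ℝ) < N := by linarith
  -- points with small coordinates
  set Hs : Finset (ZMod p) := Finset.univ.filter fun x => |x.valMinAbs| ≤ (N : ℤ) with hHs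
  have hHc : (Hs.card : ℝ) ≤ 3 * N := by
    have h1 : Hs.card ≤ (Icc (-(N : ℤ)) N).card := by
      apply Finset.card_le_card_of_injOn (fun x => x.valMinAbs)
      · intro x hx
        rw [Finset.mem_coe, hHs, Finset.mem_filter] at hx
        rw [Finset.mem_coe, Finset.mem_Icc]
        exact abs_le.1 hx.2
      · intro a _ b _ h
        exact ZMod.injective_valMinAbs h
    rw [Int.card_Icc] at h1
    have h2 : Hs.card ≤ 3 * N := by omega
    exact_mod_cast h2
  -- the fibre over `x'`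
  let fib : (Fin k → ZMod p) → Finset (Fin k → ZMod p) := fun x' =>
    B.filter (fun x => Function.update x i 0 = x')
  let S : (Fin k → ZMod p) → Finset (ZMod p) := fun x' => (fib x').image (fun x => x i)
  have hfib : ∀ x' x, x ∈ fib x' → x = Function.update x' i (x i) := by
    intro x' x hx
    rw [← (Finset.mem_filter.1 hx).2, Function.update_idem, Function.update_eq_self]
  have hSc : ∀ x', (S x').card = (fib x').card := by
    intro x'
    apply Finset.card_image_of_injOn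
    intro x hx y hy hxy
    rw [hfib x' x hx, hfib x' y hy]
    simp only at hxy
    rw [hxy]
  have hSB : ∀ x' h, h ∈ S x' → Function.update x' i h ∈ B := by
    intro x' h hh
    obtain ⟨x, hx, rfl⟩ := Finset.mem_image.1 hh
    rw [← hfib x' x hx]
    exact (Finset.mem_filter.1 hx).1
  have hS3 : ∀ x', ((S x').card : ℝ) ≤ 3 * N := by
    intro x'
    refine le_trans ?_ hHc
    have : S x' ⊆ Hs := by
      intro h hh
      have := hB _ (hSB x' h hh) i
      rw [Function.update_self] at this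
      exact Finset.mem_filter.2 ⟨Finset.mem_univ _, this⟩
    exact_mod_cast Finset.card_le_card this
  have hline : ∀ x', δ₁ * N ≤ (S x').card →
      ∃ A ⊆ (S x').image (fun h => (h, ξ (Function.update x' i h))), A.Nonempty ∧
      ((S x').card : ℝ) ≤ 8 * K * A.card ∧ ((A - A).card : ℝ) ≤ 2 ^ 22 * K ^ 10 * A.card := by
    intro x' hx'
    set F' : ZMod p → ℝ := PD (Finset.univ.erase i) x' F with hF'
    refine line_step hc hδ₁0 hΛ hN hp (F := F') (fun y => PD_abs_le hF _ _ y) ?_ (hS3 x') hx' ?_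
    · refine le_trans (Finset.sum_le_sum fun y _ => ?_) hF2
      have := PD_abs_le' hF (Finset.univ.erase i) x' (Finset.empty_subset _) y
      rwa [Finset.sum_empty, add_zero] at this
    · intro h hh
      have h1 := hBc _ (hSB x' h hh)
      have h2 : (fun y => ((PD Finset.univ (Function.update x' i h) F y : ℝ) : ℂ)) = dl F' h := by
        funext y
        unfold dl
        rw [PD_erase i, Function.update_self]
        have h3 : ∀ y, PD (Finset.univ.erase i) (Function.update x' i h) F y = F' y := by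
          intro y
          rw [hF']
          exact PD_congr (fun j hj => Function.update_of_ne (Finset.ne_of_mem_erase hj) _ _) F y
        rw [h3, h3]
      rw [h2] at h1
      exact h1
  let G : (Fin k → ZMod p) → Finset (ZMod p × ZMod p) := fun x' =>
    if h : δ₁ * N ≤ (S x').card then (hline x' h).choose else ∅
  have hG : ∀ x', δ₁ * N ≤ (S x').card →
      G x' ⊆ (S x').image (fun h => (h, ξ (Function.update x' i h))) ∧ (G x').Nonempty ∧
      ((S x').card : ℝ) ≤ 8 * K * (G x').card ∧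
      ((G x' - G x').card : ℝ) ≤ 2 ^ 22 * K ^ 10 * (G x').card := by
    intro x' h
    have e : G x' = (hline x' h).choose := dif_pos h
    rw [e]
    exact (hline x' h).choose_spec
  have hG0 : ∀ x', ¬ δ₁ * N ≤ (S x').card → G x' = ∅ := fun x' h => dif_neg h
  set B' := B.filter (fun x => (x i, ξ x) ∈ G (Function.update x i 0)) with hB'
  refine ⟨B', Finset.filter_subset _ _, ?_, fun x => G (Function.update x i 0), ?_, ?_, ?_⟩
  · -- counting
    set T := B.image (fun x => Function.update x i 0) with hT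
    have hTc : (T.card : ℝ) ≤ 3 ^ k * (N:ℝ) ^ (k - 1) := by
      have h1 : T ⊆ Fintype.piFinset (fun j : Fin k => if j = i then {(0 : ZMod p)} else Hs) := by
        intro x' hx'
        obtain ⟨x, hx, rfl⟩ := Finset.mem_image.1 hx'
        rw [Fintype.mem_piFinset]
        intro j
        by_cases hj : j = i
        · subst hj; simp
        · rw [if_neg hj, Function.update_of_ne hj]
          exact Finset.mem_filter.2 ⟨Finset.mem_univ _, hB x hx j⟩
      have h2 := Finset.card_le_card h1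
      rw [Fintype.card_piFinset, ← Finset.mul_prod_erase Finset.univ _ (Finset.mem_univ i),
        if_pos rfl, Finset.card_singleton, one_mul] at h2
      have h3 : (T.card : ℝ) ≤ ∏ j ∈ Finset.univ.erase i,
          (((if j = i then {(0 : ZMod p)} else Hs).card : ℕ) : ℝ) := by
        rw [← Nat.cast_prod]
        exact_mod_cast h2
      have h4 : (Finset.univ.erase i).card = k - 1 := by
        rw [Finset.card_erase_of_mem (Finset.mem_univ i), Finset.card_univ, Fintype.card_fin]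
      calc (T.card : ℝ) ≤ _ := h3
        _ ≤ ∏ _j ∈ Finset.univ.erase i, (3 * (N:ℝ)) := by
            refine Finset.prod_le_prod (fun j _ => Nat.cast_nonneg _) fun j hj => ?_
            rw [if_neg (Finset.ne_of_mem_erase hj)]
            exact hHc
        _ = 3 ^ (k - 1) * (N:ℝ) ^ (k - 1) := by rw [Finset.prod_const, h4, mul_pow]
        _ ≤ _ := by
            refine mul_le_mul_of_nonneg_right ?_ (by positivity)
            exact pow_le_pow_right₀ (by norm_num) (by omega)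
    have hBs : (B.card : ℝ) = ∑ x' ∈ T, ((S x').card : ℝ) := by
      have h1 : B.card = ∑ x' ∈ T, (fib x').card :=
        Finset.card_eq_sum_card_fiberwise fun x hx => Finset.mem_image_of_mem _ hx
      rw [h1, Nat.cast_sum]
      exact Finset.sum_congr rfl fun x' _ => by rw [hSc]
    have hB's : (B'.card : ℝ) = ∑ x' ∈ T, ((B'.filter (fun x => Function.update x i 0 = x')).card : ℝ) := by
      have h1 : B'.card = ∑ x' ∈ T, (B'.filter (fun x => Function.update x i 0 = x')).card :=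
        Finset.card_eq_sum_card_fiberwise fun x hx =>
          Finset.mem_image_of_mem _ (Finset.mem_filter.1 hx).1
      exact_mod_cast h1
    have hfibB' : ∀ x' ∈ T, (G x').card ≤ (B'.filter (fun x => Function.update x i 0 = x')).card := by
      intro x' hx'
      have hx'0 : Function.update x' i 0 = x' := by
        obtain ⟨x, -, rfl⟩ := Finset.mem_image.1 hx'
        rw [Function.update_idem]
      by_cases h : δ₁ * N ≤ (S x').card
      · apply Finset.card_le_card_of_injOn (fun q => Function.update x' i q.1)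
        · intro q hq
          have h1 := (hG x' h).1 hq
          obtain ⟨h0, hh0, rfl⟩ := Finset.mem_image.1 h1
          rw [Finset.mem_coe, Finset.mem_filter, hB', Finset.mem_filter]
          simp only [Function.update_idem, Function.update_self, hx'0, and_true]
          exact ⟨hSB x' h0 hh0, hq⟩
        · intro q hq q' hq' hqq
          have h1 := (hG x' h).1 hq
          have h2 := (hG x' h).1 hq'
          obtain ⟨a, -, rfl⟩ := Finset.mem_image.1 h1
          obtain ⟨b, -, rfl⟩ := Finset.mem_image.1 h2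
          have h3 := congrFun hqq i
          simp only [Function.update_self] at h3
          rw [h3]
      · rw [hG0 x' h]
        simp
    have h1 : ∀ x' ∈ T, ((S x').card : ℝ) ≤ 8 * K *
        ((B'.filter (fun x => Function.update x i 0 = x')).card : ℝ) + δ₁ * N := by
      intro x' hx'
      by_cases h : δ₁ * N ≤ (S x').card
      · have h2 : ((G x').card : ℝ) ≤ ((B'.filter (fun x => Function.update x i 0 = x')).card : ℝ) := by
          exact_mod_cast hfibB' x' hx'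
        have h3 := (hG x' h).2.2.1
        have h4 := mul_le_mul_of_nonneg_left h2 (show 0 ≤ 8 * K by positivity)
        have : 0 ≤ δ₁ * N := by positivity
        linarith
      · push Not at h
        have : 0 ≤ 8 * K * ((B'.filter (fun x => Function.update x i 0 = x')).card : ℝ) := by
          positivity
        linarith
    have h2 : (B.card : ℝ) ≤ 8 * K * B'.card + T.card * (δ₁ * N) := by
      rw [hBs, hB's]
      refine (Finset.sum_le_sum h1).trans (le_of_eq ?_)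
      rw [Finset.sum_add_distrib, ← Finset.mul_sum, Finset.sum_const, nsmul_eq_mul]
    have hk : 0 < k := i.pos
    have h3 : (T.card : ℝ) * (δ₁ * N) ≤ δ / 2 * (N:ℝ) ^ k := by
      have h4 := mul_le_mul_of_nonneg_right hTc (show 0 ≤ δ₁ * N by positivity)
      refine h4.trans (le_of_eq ?_)
      obtain ⟨k', rfl⟩ : ∃ k', k = k' + 1 := ⟨k - 1, by omega⟩
      rw [Nat.add_sub_cancel, hδ₁]
      field_simp
      ring
    have h4 : δ / 2 * (N:ℝ) ^ k ≤ 8 * K * B'.card := by linarith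
    have h5 : δ / (16 * K) * (N:ℝ) ^ k = (δ / 2 * (N:ℝ) ^ k) / (8 * K) := by
      field_simp
      ring
    rw [h5, div_le_iff₀ (by positivity)]
    linarith
  · intro x t
    simp only [Function.update_idem]
  · intro x hx
    exact (Finset.mem_filter.1 hx).2
  · intro x hx
    by_cases h : δ₁ * N ≤ (S (Function.update x i 0)).card
    · obtain ⟨h1, -, -, h4⟩ := hG _ h
      refine ⟨fun a ha b hb hab => ?_, h4.trans ?_⟩
      · obtain ⟨a', -, rfl⟩ := Finset.mem_image.1 (h1 ha)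
        obtain ⟨b', -, rfl⟩ := Finset.mem_image.1 (h1 hb)
        simp only at hab
        rw [hab]
      · exact mul_le_mul_of_nonneg_right (le_max_right _ _) (Nat.cast_nonneg _)
    · simp only [hG0 _ h] at hx
      exact absurd hx (by simp)

theorem t_REFINE : S_REFINE := by
  classical
  intro k c δ Λ hk hc hδ hΛ
  have key : ∀ T : Finset (Fin k), ∃ δ' C : ℝ, 0 < δ' ∧ 1 ≤ C ∧ ∀ (p N : ℕ) [NeZero p], 1 ≤ N →
      (p : ℝ) ≤ Λ * N → ∀ F : ZMod p → ℝ, (∀ x, |F x| ≤ 1) → ∑ x, |F x| ≤ N →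
      ∀ (ξ : (Fin k → ZMod p) → ZMod p) (B : Finset (Fin k → ZMod p)),
      (∀ x ∈ B, ∀ i, |(x i).valMinAbs| ≤ (N : ℤ)) →
      (∀ x ∈ B, c * N ≤ ‖ft (fun y => ((PD Finset.univ x F y : ℝ) : ℂ)) (ξ x)‖) →
      δ * (N : ℝ) ^ k ≤ B.card →
      ∃ B' ⊆ B, δ' * (N : ℝ) ^ k ≤ B'.card ∧ ∀ i ∈ T, Struct i C B' ξ := by
    intro T
    induction T using Finset.induction_on with
    | empty =>
      refine ⟨δ, 1, hδ, le_rfl, ?_⟩
      intro p N _ _ _ F _ _ ξ B _ _ hB
      exact ⟨B, Finset.Subset.rfl, hB, by simp⟩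
    | insert i T _ ih =>
      obtain ⟨δ₁, C₁, hδ₁, hC₁, h1⟩ := ih
      obtain ⟨δ₂, C₂, hδ₂, hC₂, h2⟩ := refine_one k c δ₁ Λ hc hδ₁ hΛ
      refine ⟨δ₂, max C₁ C₂, hδ₂, le_trans hC₁ (le_max_left _ _), ?_⟩
      intro p N _ hN hp F hF hF2 ξ B hB hBc hBδ
      obtain ⟨B₁, hB₁, hc₁, hs₁⟩ := h1 p N hN hp F hF hF2 ξ B hB hBc hBδ
      obtain ⟨B₂, hB₂, hc₂, hs₂⟩ := h2 p N hN hp F hF hF2 ξ B₁ (fun x hx => hB x (hB₁ hx))
        (fun x hx => hBc x (hB₁ hx)) hc₁ i
      refine ⟨B₂, hB₂.trans hB₁, hc₂, fun j hj => ?_⟩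
      rw [Finset.mem_insert] at hj
      rcases hj with rfl | hj
      · exact hs₂.mono (le_max_right _ _) Finset.Subset.rfl
      · exact (hs₁ j hj).mono (le_max_left _ _) hB₂
  obtain ⟨δ', C, h1, h2, h3⟩ := key Finset.univ
  refine ⟨δ', C, h1, h2, ?_⟩
  intro p N _ hN hp F hF hF2 ξ B hB hBc hBδ
  obtain ⟨B', hB', hc', hs⟩ := h3 p N hN hp F hF hF2 ξ B hB hBc hBδ
  exact ⟨B', hB', hc', fun i => hs i (Finset.mem_univ i)⟩

end Pool.Agent.J4H80.QU
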